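import Pool.Agent.H417.PL.SupSt
import Pool.Agent.H417.PL.FtyKR

/-!
# Groups with supports over groups of piecewise linear homeomorphisms

`A ≠ 0` is an additive subgroup of `ℝ`, `P` is a group of positive real numbers with `P · A ⊆ A`
(`BSData A P`) which contains a rational number different from `1`, and `I` is an interval.
`G = BS A P I` is the group of Bieri and Strebel: the piecewise linear homeomorphisms `g` of `ℝ` with
support in `I`, with finitely many breaks, all of them in `A`, with slopes in `P`, and with
`g(A) = A`; for example Thompson's group `F`, the groups of Brown and Stein, or `PL₊([0,1])`.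
`Γ = FS A P I τ` is the subgroup of the elements of `G` which fix all the elements of a finite subset
`τ` of `A`; for `τ = ∅` this is `G`.

`V` is a set on which `Γ` acts such that the stabilizer of each element of `V` consists of the
elements of `Γ` which fix the elements of some finite subset of `A` (`Supported`), for example `V = A`,
the set of the finite subsets of `A`, the set `A^n`, or the set of the compact intervals with end
points in `A`.

`R` is any ring, `rat (kgr R)` is the functor `G ↦ ℚ ⊗ K₁(R[G])`, and `Det (rat (kgr R)) G` says: for
every group `T` and every family of transformations `α_{j,i} : H_j(-; ℚ) → ℚ ⊗ K₁(R[- × T])`, `i ∈ I_j`,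
natural in the group, such that for each `j` the `α_{j,i}`, `i ∈ I_j`, are linearly independent on the
group `ℤ^j`, the sum of all the `α_{j,i}` is injective on `G`. With `T = ℤ^k` this covers the rational
assembly maps with values in `K_q(R[G])`, `q ≤ 1`. Let `𝒟` be the class of these groups.

**Theorem.** Let `Γ` act on a group `N` which has endomorphisms `e_U`, `U ⊆ V`, with
`e_U e_W = e_{U ∩ W}` and `g e_U = e_{g U} g`, each element of `N` being in the image `N_U` of `e_U`
for some finite `U` (`Sys`), and let the elements of `Γ` which fix the elements of `U` act trivially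
on `N_U`, for finite `U`. If all `N_U`, `U` finite, are in `𝒟`, then so is `N ⋊ Γ`.

For `N = 1` this says that the stabilizers `Γ` are in `𝒟`. The group `N` can be the restricted power
`K^(V)` of a group `K` in `𝒟`, so that `N ⋊ Γ` is the restricted permutational wreath product
`K ≀_V Γ`; or a graph product of groups `Q_v` in `𝒟`, `v ∈ V`, which are permuted by `Γ` (`N_U` is the
subgroup generated by the `Q_v`, `v ∈ U`); or a free or a relatively free group on `V`.

The groups `N ⋊ Γ` have `Γ` as a retract; if `I` has more than one point they have infinite
cohomological dimension, and it is not known whether they satisfy the Farrell-Jones conjecture. In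
general the action of `Γ` on `V` has infinite orbits and infinite stabilizers, which do not have
homology of finite type.

Outline of the proof. `N ⋊ Γ` is reduced to the groups `N_σ × Γ_σ`, `σ ⊆ V` finite, by transfers along
the pairs of cocycles given by the supports (library, `Det.sys`); `Γ_σ` is the stabilizer in `G` of a
finite subset of `A`, and it is a finite direct product of groups of Bieri and Strebel, by cutting the
homeomorphisms at the points of this finite set; these are in `𝒟` by
`MP_f7db47_al.BieriStrebelGroups`.
-/

set_option autoImplicit false

namespace Pool.Agent.Results.MP_e40716_gt.ProductsOverPLGroups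

open Pool.Agent.R615.KU Pool.Agent.R615.K1 Pool.Agent.Y483.PW Pool.Agent.Y110.KW
open Pool.Agent.Y477.IW (kgr)
open Pool.Agent.H417.PL

theorem result (R : Type) [Ring R] (A : AddSubgroup ℝ) (hA : A ≠ ⊥) (P : Subgroup ℝˣ) [BSData A P]
    (hs : ∃ p ∈ P, ∃ s : ℚ, s ≠ 1 ∧ ((p : ℝˣ) : ℝ) = s) (I : Set ℝ) (hI : I.OrdConnected)
    -- the group `Γ = FS A P I τ`: the stabilizer of a finite subset `τ` of `A`
    (τ : Finset ℝ) (hτ : ∀ c ∈ τ, c ∈ A)
    -- the set `V` with an action of `Γ`
    (V : Type) [MulAction (FS A P I τ) V] (hV : Supported A (FS A P I τ) V)
    -- the group `N` with supports in `V` and an action of `Γ`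
    (N : Type) [Group N] (s : Sys (FS A P I τ) N V)
    (hfix : ∀ (σ : Finset V) (γ : FS A P I τ), (∀ v ∈ σ, γ • v = v) →
      ∀ n : N, s.φ γ (s.e (σ : Set V) n) = s.e (σ : Set V) n)
    (hN : ∀ σ : Finset V, Det (rat (kgr R)) (s.e (σ : Set V)).range) :
    Det (rat (kgr R)) (N ⋊[s.φ] FS A P I τ) :=
  det_sysFS (hasPT_rat (hasPTI_kgr R)) (detFS_all (hasPT_rat (hasPTI_kgr R)) (fty_K R) hA hs hI) hτ hV
    s hfix hN

end Pool.Agent.Results.MP_e40716_gt.ProductsOverPLGroups
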