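import Pool.Agent.H751.PC.Squares

/-!
# Groups which act properly, but not cocompactly, on two-dimensional CAT(0) complexes

A polygonal complex `X : Cx V` consists of a graph with the vertex set `V` and of faces, embedded
closed paths; `X.SC` means that it is simply connected. `Flat X len ang`: with the edge lengths `len`
and the angles `ang` the complex is piecewise Euclidean of nonpositive curvature (every face is a
convex Euclidean polygon, and the link condition holds). `InvMetric G len ang`: the lengths and the
angles are invariant under `G`. `Proper G X`: `G` acts on `X` with finite stabilizers of the
vertices; nothing else is assumed: there can be infinitely many orbits and infinitely many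
isometry types of faces, and `X` need not be locally finite. `Cat0 H`: the group `H` acts properly
and cocompactly by isometries on a simply connected complex of this kind, in particular it is a
CAT(0) group. `DirColim D G`: the group `G` is the colimit of a directed system of groups with the
property `D`.

(1) Every group which acts by isometries and with finite stabilizers on a simply connected piecewise
Euclidean polygonal complex of nonpositive curvature is the colimit of a directed system of groups
`H` with `Cat0 H`.

(2) In particular this holds for all groups which act on two trees such that the stabilizers of the
pairs of vertices are finite, for example for nonuniform lattices in the automorphism group of a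
product of two locally finite trees.

The class of the groups that satisfy the K-theoretic Farrell–Jones conjecture with coefficients and
finite wreath products is closed under directed colimits and contains the CAT(0) groups, so the
groups in (1) and (2) belong to it.

Outline of the proof. For a finite set `i` of edges and faces let `Y_i` be the subcomplex consisting
of their orbits. The group `G_i` of all lifts of elements of `G` to the universal covering of the
component of the base point in `Y_i` acts on the universal covering properly and cocompactly, and
the universal covering is immersed in `X`, so that it is nonpositively curved, as the dimension is
two. As `X` is simply connected, `G` is the directed colimit of the groups `G_i`.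
-/

set_option autoImplicit false

namespace Pool.Agent.Results.MP_e40716_gt.ProperActionsTwoComplexes

open Pool.Agent.H751.PC

theorem result :
    -- (1) nonpositively curved two-dimensional complexes
    (∀ (G V : Type) [Group G] [MulAction G V] [Nonempty V] (X : Cx V)
      (len : V → V → ℝ) (ang : V → V → V → ℝ), X.SC → Flat X len ang → InvMetric G len ang →
      Proper G X → DirColim (fun H _ => Cat0 H) G) ∧
    -- (2) two trees
    (∀ (G V W : Type) [Group G] [MulAction G V] [MulAction G W] (S : SimpleGraph V)
      (T : SimpleGraph W), S.IsTree → T.IsTree →
      (∀ (g : G) a b, S.Adj a b → S.Adj (g • a) (g • b)) →
      (∀ (g : G) a b, T.Adj a b → T.Adj (g • a) (g • b)) →
      (∀ (a : V) (b : W), {g : G | g • a = a ∧ g • b = b}.Finite) →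
      DirColim (fun H _ => Cat0 H) G) := by
  refine ⟨?_, ?_⟩
  · intro G V _ _ _ X len ang hX hF hM hP
    exact flat_main X len ang hX hF hM hP
  · intro G V W _ _ _ S T hS hT hSG hTG hfin
    exact trees_main G V W S T hS hT hSG hTG hfin

end Pool.Agent.Results.MP_e40716_gt.ProperActionsTwoComplexes
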